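import Mathlib
import Pool.Prelude.Def_F_8db9d53c

set_option autoImplicit false
open N6ef48c04

namespace Pool.Agent.H251R2.Cops

variable {V : Type*}

/-- The cops' game with cops indexed by an arbitrary type. -/
def CatchI (G : SimpleGraph V) {ι : Type*} : ℕ → (ι → V) → V → Prop
  | 0, c, r => ∃ i, c i = r
  | m + 1, c, r =>
      (∃ i, c i = r) ∨
        ∃ c' : ι → V, (∀ i, Step G (c i) (c' i)) ∧
          ((∃ i, c' i = r) ∨ ∀ r', Step G r r' → CatchI G m c' r')

theorem catchI_mono (G : SimpleGraph V) {ι : Type*} (m : ℕ) :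
    ∀ (c : ι → V) (r : V), CatchI G m c r → CatchI G (m + 1) c r := by
  induction m with
  | zero =>
    intro c r h
    exact Or.inl h
  | succ m ih =>
    intro c r h
    rcases h with h | ⟨c', hc, h⟩
    · exact Or.inl h
    · refine Or.inr ⟨c', hc, ?_⟩
      rcases h with h | h
      · exact Or.inl h
      · exact Or.inr fun r' hr => ih c' r' (h r' hr)

theorem catchI_mono' (G : SimpleGraph V) {ι : Type*} {m n : ℕ} (hmn : m ≤ n)
    {c : ι → V} {r : V} (h : CatchI G m c r) : CatchI G n c r := by
  induction n, hmn using Nat.le_induction with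
  | base => exact h
  | succ n _ ih => exact catchI_mono G n c r ih

theorem catchI_transfer (G : SimpleGraph V) {ι : Type*} {k : ℕ} (e : Fin k → ι)
    (he : Function.Surjective e) (m : ℕ) :
    ∀ (c : ι → V) (r : V), CatchI G m c r → CopsCatchWithin G k m (c ∘ e) r := by
  induction m with
  | zero =>
    rintro c r ⟨i, hi⟩
    obtain ⟨j, rfl⟩ := he i
    exact ⟨j, hi⟩
  | succ m ih =>
    intro c r h
    rcases h with ⟨i, hi⟩ | ⟨c', hc, h⟩
    · obtain ⟨j, rfl⟩ := he i
      exact Or.inl ⟨j, hi⟩
    · refine Or.inr ⟨c' ∘ e, fun i => hc _, ?_⟩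
      rcases h with ⟨i, hi⟩ | h
      · obtain ⟨j, rfl⟩ := he i
        exact Or.inl ⟨j, hi⟩
      · exact Or.inr fun r' hr => ih c' r' (h r' hr)

theorem copNumber_le (G : SimpleGraph V) {ι : Type*} [Fintype ι] (c : ι → V)
    (h : ∀ r, ∃ m, CatchI G m c r) : copNumber G ≤ Fintype.card ι := by
  apply Nat.sInf_le
  refine ⟨c ∘ (Fintype.equivFin ι).symm, fun r => ?_⟩
  obtain ⟨m, hm⟩ := h r
  exact ⟨m, catchI_transfer G _ (Fintype.equivFin ι).symm.surjective m c r hm⟩

/-- More cops never hurt. -/
theorem catchI_comp (G : SimpleGraph V) {ι κ : Type*} (e : κ → ι)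
    (he : Function.Surjective e) (m : ℕ) :
    ∀ (c : ι → V) (r : V), CatchI G m c r → CatchI G m (c ∘ e) r := by
  induction m with
  | zero =>
    rintro c r ⟨i, hi⟩
    obtain ⟨j, rfl⟩ := he i
    exact ⟨j, hi⟩
  | succ m ih =>
    intro c r h
    rcases h with ⟨i, hi⟩ | ⟨c', hc, h⟩
    · obtain ⟨j, rfl⟩ := he i
      exact Or.inl ⟨j, hi⟩
    · refine Or.inr ⟨c' ∘ e, fun i => hc _, ?_⟩
      rcases h with ⟨i, hi⟩ | h
      · obtain ⟨j, rfl⟩ := he i
        exact Or.inl ⟨j, hi⟩
      · exact Or.inr fun r' hr => ih c' r' (h r' hr)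

theorem step_refl (G : SimpleGraph V) (v : V) : Step G v v := Or.inl rfl

theorem step_iso (G : SimpleGraph V) (φ : G ≃g G) {u v : V} (h : Step G u v) :
    Step G (φ u) (φ v) := by
  rcases h with rfl | h
  · exact Or.inl rfl
  · exact Or.inr (φ.map_adj_iff.2 h)

/-- `Reach G x0 τ n d`: from frame position `d` the frame position `x0` is reached after `n`
answers, an answer being a cop's step followed by `τ⁻¹`. -/
def Reach (G : SimpleGraph V) (x0 : V) (τ : G ≃g G) : ℕ → V → Prop
  | 0, d => d = x0
  | n + 1, d => ∃ e, Step G d e ∧ Reach G x0 τ n (τ.symm e)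

theorem exists_reach [Finite V] (G : SimpleGraph V) (hG : G.Connected) (x0 : V) (τ : G ≃g G)
    (d : V) : ∃ n, Reach G x0 τ n d := by
  classical
  -- one application of `τ.symm`
  have h1 : ∀ d, (∃ n, Reach G x0 τ n (τ.symm d)) → ∃ n, Reach G x0 τ n d := by
    rintro d ⟨n, hn⟩
    exact ⟨n + 1, d, step_refl G d, hn⟩
  have h2 : ∀ (i : ℕ) d, (∃ n, Reach G x0 τ n ((τ.symm)^[i] d)) → ∃ n, Reach G x0 τ n d := by
    intro i
    induction i with
    | zero => intro d h; exact h
    | succ i ih =>
      intro d h
      apply h1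
      apply ih
      rwa [Function.iterate_succ_apply] at h
  -- τ has finite order
  have h3 : ∀ d, ∃ i : ℕ, (τ.symm)^[i] d = τ d := by
    intro d
    have hinj : Function.Injective (τ.symm : V → V) := τ.symm.injective
    have hfin : (τ d) ∈ Function.periodicPts (τ.symm : V → V) := by
      have := Function.Injective.mem_periodicPts hinj (τ d)
      exact this
    obtain ⟨m, hm, hp⟩ := hfin
    -- (τ.symm)^[m] (τ d) = τ d, m > 0
    obtain ⟨i, rfl⟩ : ∃ i, m = i + 1 := ⟨m - 1, by omega⟩
    refine ⟨i, ?_⟩
    have : (τ.symm)^[i + 1] (τ d) = τ d := hp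
    rw [Function.iterate_succ_apply] at this
    simpa using this
  have h4 : ∀ d e, Step G d e → (∃ n, Reach G x0 τ n e) → ∃ n, Reach G x0 τ n d := by
    rintro d e hde ⟨n, hn⟩
    obtain ⟨i, hi⟩ := h3 d
    apply h2 i
    rw [hi]
    refine ⟨n + 1, τ e, step_iso G τ hde, ?_⟩
    simpa using hn
  have h5 : ∀ d z, G.Walk d z → (∃ n, Reach G x0 τ n z) → ∃ n, Reach G x0 τ n d := by
    intro d z w
    induction w with
    | nil => exact id
    | cons hadj _ ih => exact fun h => h4 _ _ (Or.inr hadj) (ih h)
  obtain ⟨w⟩ := hG.preconnected d x0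
  exact h5 d x0 w ⟨0, rfl⟩

/-- `φ` moves every vertex to itself or to a neighbour. -/
def Shifting (G : SimpleGraph V) (φ : G ≃g G) : Prop := ∀ v, Step G v (φ v)

/-- The main strategy. `A` static cops, `B` chasing cops. -/
theorem strategy [Finite V] (G : SimpleGraph V) {A B : Type*} [Fintype B]
    (x0 : V) (τ : V → (G ≃g G))
    (hτ : ∀ y, Step G x0 y → τ y x0 = y ∧ Shifting G (τ y))
    (d : A → V) (lab : B → V)
    (hlab : ∀ y, Step G x0 y → (∃ a, Step G (d a) y) ∨ ∃ j, lab j = y) :
    ∀ (N : ℕ) (Φ : G ≃g G) (b : B → V) (n : B → ℕ)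
      (_ : ∀ j, Reach G x0 (τ (lab j)) (n j) (b j)) (_ : ∑ j, n j = N) (y : V)
      (_ : Step G x0 y),
      ∃ m, CatchI G m (Sum.elim (fun a => Φ (d a)) (fun j => Φ (b j))) (Φ y) := by
  classical
  intro N
  induction N using Nat.strong_induction_on with
  | _ N ih =>
    intro Φ b n hn hN y hy
    by_cases h0 : ∃ j, n j = 0
    · -- some chasing cop is at `Φ x0`
      obtain ⟨j, hj⟩ := h0
      have hb : b j = x0 := by
        have := hn j
        rw [hj] at this
        exact this
      refine ⟨1, Or.inr ⟨Function.update (Sum.elim (fun a => Φ (d a)) (fun j => Φ (b j)))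
        (Sum.inr j) (Φ y), ?_, Or.inl ⟨Sum.inr j, by simp⟩⟩⟩
      intro i
      by_cases hi : i = Sum.inr j
      · subst hi
        simp only [Function.update_self, Sum.elim_inr, hb]
        exact step_iso G Φ hy
      · rw [Function.update_of_ne hi]
        exact step_refl G _
    · push Not at h0
      rcases hlab y hy with ⟨a, ha⟩ | ⟨j, hj⟩
      · refine ⟨1, Or.inr ⟨Function.update (Sum.elim (fun a => Φ (d a)) (fun j => Φ (b j)))
          (Sum.inl a) (Φ y), ?_, Or.inl ⟨Sum.inl a, by simp⟩⟩⟩
        intro i
        by_cases hi : i = Sum.inl a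
        · subst hi
          simp only [Function.update_self, Sum.elim_inl]
          exact step_iso G Φ ha
        · rw [Function.update_of_ne hi]
          exact step_refl G _
      · -- respond with the frame shift `τ y`
        obtain ⟨hy0, hsh⟩ := hτ y hy
        -- the responses
        have hresp : ∀ i : B, ∃ (e : V) (k : ℕ), Step G (b i) e ∧
            Reach G x0 (τ (lab i)) k ((τ y).symm e) ∧ k ≤ n i ∧ (lab i = y → k < n i) := by
          intro i
          by_cases hi : lab i = y
          · have h1 := hn i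
            obtain ⟨k, hk⟩ : ∃ k, n i = k + 1 := ⟨n i - 1, by have := h0 i; omega⟩
            rw [hk] at h1
            obtain ⟨e, he, hr⟩ := h1
            rw [hi] at hr
            refine ⟨e, k, he, ?_, by omega, fun _ => by omega⟩
            rw [hi]
            exact hr
          · refine ⟨τ y (b i), n i, hsh _, ?_, le_rfl, fun h => absurd h hi⟩
            simpa using hn i
        choose e k he hr hk hk' using hresp
        have hlt : ∑ i, k i < N := by
          rw [← hN]
          exact Finset.sum_lt_sum (fun i _ => hk i) ⟨j, Finset.mem_univ _, hk' j hj⟩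
        -- the new frame
        let Φ' : G ≃g G := (τ y).trans Φ
        have key := ih (∑ i, k i) hlt Φ' (fun i => (τ y).symm (e i)) k hr rfl
        -- a uniform bound on the number of rounds
        have hy2 : ∀ z, Step G x0 z → ∃ m, CatchI G m
            (Sum.elim (fun a => Φ' (d a)) (fun j => Φ' ((τ y).symm (e j)))) (Φ' z) := key
        choose! M hM using hy2
        have := Fintype.ofFinite V
        let m := ∑ z, M z
        refine ⟨m + 1, Or.inr ⟨Sum.elim (fun a => Φ' (d a)) (fun j => Φ' ((τ y).symm (e j))),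
          ?_, Or.inr ?_⟩⟩
        · rintro (a | i)
          · simp only [Sum.elim_inl]
            exact step_iso G Φ (hsh (d a))
          · simp only [Sum.elim_inr]
            have : Φ' ((τ y).symm (e i)) = Φ (e i) := by
              simp [Φ']
            rw [this]
            exact step_iso G Φ (he i)
        · intro r' hr'
          -- r' = Φ' z with Step x0 z
          have hz : Step G x0 (Φ'.symm r') := by
            have h1 := step_iso G Φ'.symm hr'
            have h2 : Φ'.symm (Φ y) = x0 := by
              have : Φ y = Φ' x0 := by simp [Φ', hy0]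
              rw [this]
              simp
            rwa [h2] at h1
          have h3 := hM (Φ'.symm r') hz
          rw [RelIso.apply_symm_apply] at h3
          exact catchI_mono' G (Finset.single_le_sum (f := M) (fun i _ => Nat.zero_le _)
            (Finset.mem_univ _)) h3

end Pool.Agent.H251R2.Cops
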